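import Pool.Agent.Y163.MW.Asm
import Pool.Agent.Y954.MW.B1

/-!
# The index law for the monodromy-weight conjecture: final form
-/

set_option autoImplicit false

open Module TensorProduct Filter Topology

namespace Pool.Agent.N536.MW

universe u v w

open Pool.Agent.Y143 Pool.Agent.Y136.UB Pool.Agent.H914 Pool.Agent.Y163.MW Pool.Agent.Y163.MW.Coh

theorem b1 : StB1.{v, w} := Pool.Agent.Y954.MW.stB1 Pool.Agent.Y141.MW.stL

section

variable {K : Type u} [Field K] {Ω : Type w} [Field Ω] [CharZero Ω] [IsAlgClosed Ω]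
  {T : Theory.{u, v, w} K Ω} {q : ℕ}

/-- The square root of the quotient of the moments. -/
noncomputable def kap (T : Theory.{u, v, w} K Ω) (q : ℕ) (X : SmVar.{u} K) : ℝ :=
  √(((T.H X).totWeightMoment q : ℝ) / ((T.H X).totRankMoment : ℝ))

theorem kap_ge (hT : T.IsLocal q) (hq : 1 < q) (X : SmVar.{u} K) (hN : (T.H X).N ≠ 0) :
    0 < (T.H X).totRankMoment ∧ 1 ≤ kap T q X ∧
      (kap T q X = 1 ↔ ∀ m, (T.H X).MWPure q m) := by
  have hpos : 0 < (T.H X).totRankMoment := by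
    obtain ⟨S⟩ := exists_strings hq (hT.coh X)
    obtain ⟨s, hs⟩ := exists_len S hN
    rw [totRank_eq S]
    refine lt_of_lt_of_le ?_ (Finset.single_le_sum (f := fun p => S.ct p ^ 2)
      (fun p _ => sq_nonneg _) (Finset.mem_univ (⟨s, ⟨0, by omega⟩⟩ : S.P)))
    have h1 : S.ct ⟨s, ⟨0, by omega⟩⟩ = S.len s := by
      unfold Strings.ct
      simp
    rw [h1]
    positivity
  obtain ⟨h1, h2⟩ := moment_tot hq (hT.coh X)
  have hposR : (0 : ℝ) < ((T.H X).totRankMoment : ℝ) := by exact_mod_cast hpos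
  refine ⟨hpos, ?_, ?_⟩
  · unfold kap
    rw [Real.one_le_sqrt, one_le_div hposR]
    exact_mod_cast h1
  · rw [← h2]
    unfold kap
    rw [Real.sqrt_eq_one, div_eq_one_iff_eq hposR.ne']
    constructor
    · intro h
      exact_mod_cast h.symm
    · intro h
      exact_mod_cast h.symm

/-- The index law. -/
theorem law (hT : T.IsLocal q) (hq : 1 < q) (X : SmVar.{u} K) :
    ((T.H (X.prod X)).inv = (T.H (X.prod X)).pred q ↔ ∀ m, (T.H X).MWPure q m) ∧
    ((T.H X).N ≠ 0 → ∃ κ : ℝ, κ ^ 2 * (T.H X).totRankMoment = (T.H X).totWeightMoment q ∧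
      1 ≤ κ ∧ (κ = 1 ↔ ∀ m, (T.H X).MWPure q m) ∧
      Tendsto (fun n : ℕ => ((T.H (pow X n)).inv : ℝ) / ((T.H (pow X n)).pred q : ℝ)) atTop
        (𝓝 κ)) := by
  refine ⟨square_iff b1 hT hq X, fun hN => ?_⟩
  obtain ⟨h1, h2, h3⟩ := kap_ge hT hq X hN
  have h1' : (0 : ℝ) < ((T.H X).totRankMoment : ℝ) := by exact_mod_cast h1
  refine ⟨kap T q X, ?_, h2, h3, index_law b1 hT hq X hN⟩
  have h4 : (0 : ℝ) ≤ ((T.H X).totWeightMoment q : ℝ) / ((T.H X).totRankMoment : ℝ) := by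
    by_contra hcon
    push Not at hcon
    have h5 : kap T q X = 0 := Real.sqrt_eq_zero_of_nonpos hcon.le
    rw [h5] at h2
    linarith
  unfold kap
  rw [Real.sq_sqrt h4, div_mul_cancel₀ _ h1'.ne']

end

end Pool.Agent.N536.MW
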