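import Mathlib

/-!
# A concentration inequality for sums of independent integral variables
-/

set_option autoImplicit false

open Finset

namespace Pool.Agent.N536.MW

variable {I : Type} [Fintype I] [DecidableEq I] {n : ℕ}

/-- The members of the family `g` which are `i` or `j` are replaced by `i` on `R` and by `j`
outside. -/
def reset (i j : I) (R : Finset (Fin n)) (g : Fin n → I) : Fin n → I := fun k =>
  if g k = i ∨ g k = j then (if k ∈ R then i else j) else g k

/-- The involution on the pairs. -/
def phi (i j : I) (x : (Fin n → I) × Finset (Fin n)) : (Fin n → I) × Finset (Fin n) :=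
  (reset i j x.2 x.1, univ.filter fun k =>
    if x.1 k = i ∨ x.1 k = j then x.1 k = i else k ∈ x.2)

theorem phi_phi {i j : I} (hij : i ≠ j) (x : (Fin n → I) × Finset (Fin n)) :
    phi i j (phi i j x) = x := by
  obtain ⟨g, R⟩ := x
  have h1 : ∀ k, (reset i j R g k = i ∨ reset i j R g k = j) ↔ (g k = i ∨ g k = j) := by
    intro k
    unfold reset
    split_ifs with h2 h3
    · simp [h2]
    · simp [h2]
    · exact Iff.rfl
  refine Prod.ext ?_ ?_
  · funext k
    show reset i j (univ.filter fun k => if g k = i ∨ g k = j then g k = i else k ∈ R)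
      (reset i j R g) k = g k
    by_cases h2 : g k = i ∨ g k = j
    · have h3 : reset i j (univ.filter fun k => if g k = i ∨ g k = j then g k = i else k ∈ R)
          (reset i j R g) k =
          if k ∈ (univ.filter fun k => if g k = i ∨ g k = j then g k = i else k ∈ R) then i
          else j := if_pos ((h1 k).2 h2)
      rw [h3]
      simp only [mem_filter, mem_univ, true_and, if_pos h2]
      rcases h2 with h3 | h3
      · rw [if_pos h3, h3]
      · rw [if_neg (by rw [h3]; exact hij.symm), h3]
    · have h3 : reset i j (univ.filter fun k => if g k = i ∨ g k = j then g k = i else k ∈ R)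
          (reset i j R g) k = reset i j R g k := if_neg (fun h => h2 ((h1 k).1 h))
      rw [h3]
      exact if_neg h2
  · ext k
    simp only [phi, mem_filter, mem_univ, true_and]
    by_cases h2 : g k = i ∨ g k = j
    · rw [if_pos ((h1 k).2 h2)]
      unfold reset
      rw [if_pos h2]
      by_cases h3 : k ∈ R
      · simp [h3]
      · simp [h3, hij.symm]
    · rw [if_neg (fun h => h2 ((h1 k).1 h)), if_neg h2]

theorem card_pairs {i j : I} (hij : i ≠ j) (A : (Fin n → I) → Prop) [DecidablePred A] :
    ∑ g : Fin n → I, (univ.filter fun R : Finset (Fin n) => A (reset i j R g)).card =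
      2 ^ n * (univ.filter A).card := by
  have h1 : ∑ g : Fin n → I, (univ.filter fun R : Finset (Fin n) => A (reset i j R g)).card =
      (univ.filter fun x : (Fin n → I) × Finset (Fin n) => A (reset i j x.2 x.1)).card := by
    rw [card_filter, Fintype.sum_prod_type]
    refine sum_congr rfl fun g _ => ?_
    rw [card_filter]
  have h2 : (univ.filter fun x : (Fin n → I) × Finset (Fin n) => A (reset i j x.2 x.1)).card =
      (univ.filter fun x : (Fin n → I) × Finset (Fin n) => A x.1).card := by
    refine card_bij' (fun x _ => phi i j x) (fun x _ => phi i j x) ?_ ?_ ?_ ?_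
    · intro x hx
      rw [mem_filter] at hx ⊢
      exact ⟨mem_univ _, hx.2⟩
    · intro x hx
      rw [mem_filter] at hx ⊢
      refine ⟨mem_univ _, ?_⟩
      have h3 : reset i j (phi i j x).2 (phi i j x).1 = x.1 := by
        have h4 := congrArg Prod.fst (phi_phi hij x)
        exact h4
      rw [h3]
      exact hx.2
    · intro x _
      exact phi_phi hij x
    · intro x _
      exact phi_phi hij x
  rw [h1, h2, card_filter, Fintype.sum_prod_type_right]
  have h5 : ∀ y : Finset (Fin n), ∑ x : Fin n → I, (if A (x, y).1 then 1 else 0) =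
      (univ.filter A).card := fun y => (card_filter _ _).symm
  rw [sum_congr rfl fun y _ => h5 y, sum_const, card_univ, Fintype.card_finset,
    Fintype.card_fin, smul_eq_mul]

/-- The number of the sets with given intersection number with `U`. -/
theorem card_inter (U : Finset (Fin n)) (x : ℕ) :
    (univ.filter fun R : Finset (Fin n) => (U ∩ R).card = x).card =
      U.card.choose x * 2 ^ (Uᶜ).card := by
  rw [← card_powersetCard, ← card_powerset, ← card_product]
  refine card_bij' (fun R _ => (U ∩ R, Uᶜ ∩ R)) (fun y _ => y.1 ∪ y.2) ?_ ?_ ?_ ?_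
  · intro R hR
    rw [mem_filter] at hR
    rw [mem_product, mem_powersetCard, mem_powerset]
    exact ⟨⟨inter_subset_left, hR.2⟩, inter_subset_left⟩
  · rintro ⟨y, z⟩ hy
    rw [mem_product, mem_powersetCard, mem_powerset] at hy
    rw [mem_filter]
    refine ⟨mem_univ _, ?_⟩
    obtain ⟨⟨h1, h2⟩, h3⟩ := hy
    simp only at h1 h2 h3 ⊢
    have h4 : U ∩ (y ∪ z) = y := by
      ext k
      simp only [mem_inter, mem_union]
      constructor
      · rintro ⟨h5, h6 | h6⟩
        · exact h6
        · exact absurd h5 (mem_compl.1 (h3 h6))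
      · intro h5
        exact ⟨h1 h5, Or.inl h5⟩
    rw [h4, h2]
  · intro R _
    ext k
    simp only [mem_union, mem_inter, mem_compl]
    tauto
  · rintro ⟨y, z⟩ hy
    rw [mem_product, mem_powersetCard, mem_powerset] at hy
    obtain ⟨⟨h1, h2⟩, h3⟩ := hy
    simp only at h1 h2 h3 ⊢
    refine Prod.ext ?_ ?_
    · ext k
      simp only [mem_inter, mem_union]
      constructor
      · rintro ⟨h5, h6 | h6⟩
        · exact h6
        · exact absurd h5 (mem_compl.1 (h3 h6))
      · intro h5
        exact ⟨h1 h5, Or.inl h5⟩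
    · ext k
      simp only [mem_inter, mem_union, mem_compl]
      constructor
      · rintro ⟨h5, h6 | h6⟩
        · exact absurd (h1 h6) h5
        · exact h6
      · intro h5
        exact ⟨mem_compl.1 (h3 h5), Or.inr h5⟩

/-- The set of the places of `i` and `j`. -/
def pl (i j : I) (g : Fin n → I) : Finset (Fin n) := univ.filter fun k => g k = i ∨ g k = j

theorem sum_reset (i j : I) (δ : I → ℤ) (R : Finset (Fin n)) (g : Fin n → I) :
    ∑ k, δ (reset i j R g k) = ∑ k ∈ (pl i j g)ᶜ, δ (g k) + (pl i j g).card * δ j +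
      (pl i j g ∩ R).card * (δ i - δ j) := by
  rw [← sum_compl_add_sum (pl i j g), add_assoc]
  congr 1
  · refine sum_congr rfl fun k hk => ?_
    rw [mem_compl, pl, mem_filter] at hk
    unfold reset
    rw [if_neg (fun h => hk ⟨mem_univ _, h⟩)]
  · have h1 : ∀ k ∈ pl i j g, δ (reset i j R g k) = δ j + if k ∈ R then (δ i - δ j) else 0 := by
      intro k hk
      rw [pl, mem_filter] at hk
      unfold reset
      rw [if_pos hk.2]
      split_ifs
      · ring
      · ring
    rw [sum_congr rfl h1, sum_add_distrib, sum_const, nsmul_eq_mul, ← sum_filter, sum_const,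
      nsmul_eq_mul, filter_mem_eq_inter]

theorem central_bound (m : ℕ) : (2 * m + 1) * (m.centralBinom) ^ 2 ≤ 16 ^ m := by
  induction m with
  | zero => simp
  | succ m ih =>
    have h1 := Nat.succ_mul_centralBinom_succ m
    have h2 : (m + 1) ^ 2 * ((2 * (m + 1) + 1) * ((m + 1).centralBinom) ^ 2) ≤
        (m + 1) ^ 2 * 16 ^ (m + 1) := by
      calc (m + 1) ^ 2 * ((2 * (m + 1) + 1) * ((m + 1).centralBinom) ^ 2)
          = (2 * (m + 1) + 1) * ((m + 1) * (m + 1).centralBinom) ^ 2 := by ring
        _ = (2 * (m + 1) + 1) * (2 * (2 * m + 1) * m.centralBinom) ^ 2 := by rw [h1]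
        _ = (4 * ((2 * m + 3) * (2 * m + 1))) * ((2 * m + 1) * m.centralBinom ^ 2) := by ring
        _ ≤ (16 * (m + 1) ^ 2) * 16 ^ m := by
            refine Nat.mul_le_mul ?_ ih
            nlinarith
        _ = (m + 1) ^ 2 * 16 ^ (m + 1) := by ring
    exact Nat.le_of_mul_le_mul_left h2 (by positivity)

theorem middle_bound (u : ℕ) : (u + 1) * (u.choose (u / 2)) ^ 2 ≤ 4 ^ u := by
  rcases Nat.even_or_odd' u with ⟨m, hm | hm⟩
  · have h1 := central_bound m
    rw [hm, show 2 * m / 2 = m by omega, pow_mul, show (4 : ℕ) ^ 2 = 16 by norm_num]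
    exact h1
  · have h1 := central_bound (m + 1)
    have h2 : (m + 1).centralBinom = 2 * (2 * m + 1).choose m := by
      rw [Nat.centralBinom_eq_two_mul_choose, show 2 * (m + 1) = (2 * m + 1) + 1 by ring,
        Nat.choose_succ_succ, Nat.choose_symm_half]
      ring
    rw [h2] at h1
    rw [hm, show (2 * m + 1) / 2 = m by omega]
    have h3 : (4 : ℕ) ^ (2 * m + 1) * 4 = 16 ^ (m + 1) := by
      rw [← pow_succ, show 2 * m + 1 + 1 = 2 * (m + 1) by ring, pow_mul]
      norm_num
    nlinarith [Nat.zero_le ((2 * m + 1).choose m ^ 2)]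

theorem pl_insert (i j : I) (k : Fin (n + 1)) (x : I) (g : Fin n → I) :
    (pl i j (k.insertNth x g : Fin (n + 1) → I)).card =
      (if x = i ∨ x = j then 1 else 0) + (pl i j g).card := by
  unfold pl
  rw [card_filter, card_filter, Fin.sum_univ_succAbove _ k]
  simp only [Fin.insertNth_apply_same, Fin.insertNth_apply_succAbove]

/-- The mean value of `1 / (u + 1)` for the number `u` of the members `i` and `j`. -/
theorem sum_inv {i j : I} (hij : i ≠ j) (n : ℕ) :
    ∑ g : Fin n → I, (1 : ℝ) / ((pl i j g).card + 1) ≤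
      (Fintype.card I : ℝ) ^ (n + 1) / (2 * (n + 1)) := by
  have h1 : ∑ h : Fin (n + 1) → I, ∑ k : Fin (n + 1),
      (if h k = i ∨ h k = j then (1 : ℝ) / (pl i j h).card else 0) ≤
      (Fintype.card I : ℝ) ^ (n + 1) := by
    have h2 : ∀ h : Fin (n + 1) → I, ∑ k : Fin (n + 1),
        (if h k = i ∨ h k = j then (1 : ℝ) / (pl i j h).card else 0) ≤ 1 := by
      intro h
      rw [← sum_filter, sum_const, nsmul_eq_mul]
      show ((pl i j h).card : ℝ) * (1 / (pl i j h).card) ≤ 1
      rw [mul_one_div]
      exact div_self_le_one _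
    refine (sum_le_sum fun h _ => h2 h).trans (le_of_eq ?_)
    rw [sum_const, card_univ, Fintype.card_fun, Fintype.card_fin, nsmul_eq_mul, mul_one]
    push_cast
    rfl
  have h3 : ∀ k : Fin (n + 1), ∑ h : Fin (n + 1) → I,
      (if h k = i ∨ h k = j then (1 : ℝ) / (pl i j h).card else 0) =
      2 * ∑ g : Fin n → I, (1 : ℝ) / ((pl i j g).card + 1) := by
    intro k
    rw [← (Fin.insertNthEquiv (fun _ => I) k).sum_comp, Fintype.sum_prod_type]
    have h4 : ∀ (x : I) (g : Fin n → I),
        (if (Fin.insertNthEquiv (fun _ => I) k (x, g)) k = i ∨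
          (Fin.insertNthEquiv (fun _ => I) k (x, g)) k = j then
          (1 : ℝ) / (pl i j (Fin.insertNthEquiv (fun _ => I) k (x, g))).card else 0) =
        if x = i ∨ x = j then (1 : ℝ) / ((pl i j g).card + 1) else 0 := by
      intro x g
      have h5 : (Fin.insertNthEquiv (fun _ => I) k (x, g)) =
        (k.insertNth x g : Fin (n + 1) → I) := rfl
      rw [h5, pl_insert, Fin.insertNth_apply_same]
      split_ifs with h6
      · push_cast
        rw [add_comm]
      · rfl
    rw [sum_congr rfl fun x _ => sum_congr rfl fun g _ => h4 x g, sum_comm, mul_sum]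
    refine sum_congr rfl fun g _ => ?_
    rw [← sum_filter, sum_const, nsmul_eq_mul]
    congr 1
    have h7 : (univ.filter fun x : I => x = i ∨ x = j) = {i, j} := by
      ext x
      simp
    rw [h7, card_pair hij]
    norm_num
  rw [sum_comm, sum_congr rfl fun k _ => h3 k, sum_const, card_univ, Fintype.card_fin,
    nsmul_eq_mul] at h1
  rw [le_div_iff₀ (by positivity)]
  push_cast at h1
  linarith

/-- **The anticoncentration inequality.** -/
theorem count_le (δ : I → ℤ) {i j : I} (hij : δ i ≠ δ j) (n : ℕ) :
    2 * ((n : ℝ) + 1) * ((univ.filter fun g : Fin n → I => ∑ k, δ (g k) = 0).card : ℝ) ^ 2 ≤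
      (Fintype.card I : ℝ) * ((Fintype.card I : ℝ) ^ n) ^ 2 := by
  have hij' : i ≠ j := fun h => hij (by rw [h])
  -- the families with a given class
  have key : ((univ.filter fun g : Fin n → I => ∑ k, δ (g k) = 0).card : ℝ) ≤
      ∑ g : Fin n → I, ((pl i j g).card.choose ((pl i j g).card / 2) : ℝ) /
        2 ^ (pl i j g).card := by
    have q1 := card_pairs hij' (fun g : Fin n → I => ∑ k, δ (g k) = 0)
    have q2 : (2 : ℝ) ^ n * ((univ.filter fun g : Fin n → I => ∑ k, δ (g k) = 0).card : ℝ) ≤
        2 ^ n * ∑ g : Fin n → I, ((pl i j g).card.choose ((pl i j g).card / 2) : ℝ) /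
        2 ^ (pl i j g).card := by
      have q3 : (2 : ℝ) ^ n * ((univ.filter fun g : Fin n → I => ∑ k, δ (g k) = 0).card : ℝ) =
          ∑ g : Fin n → I, (((univ.filter fun R : Finset (Fin n) =>
            ∑ k, δ (reset i j R g k) = 0).card : ℕ) : ℝ) := by
        rw [← Nat.cast_sum, q1]
        push_cast
        rfl
      rw [q3, mul_sum]
      refine sum_le_sum fun g _ => ?_
      have h0 : (pl i j g).card ≤ n := by
        refine (card_le_univ _).trans (le_of_eq (Fintype.card_fin n))
      have h1 : (2 : ℝ) ^ n * (((pl i j g).card.choose ((pl i j g).card / 2) : ℝ) /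
          2 ^ (pl i j g).card) =
          (((pl i j g).card.choose ((pl i j g).card / 2) * 2 ^ ((pl i j g)ᶜ).card : ℕ) : ℝ) := by
        rw [card_compl, Fintype.card_fin]
        push_cast
        rw [mul_div_assoc', div_eq_iff (by positivity), mul_assoc, ← pow_add,
          Nat.sub_add_cancel h0]
        ring
      rw [h1, Nat.cast_le]
      by_cases hex : ∃ R₀ : Finset (Fin n), ∑ k, δ (reset i j R₀ g k) = 0
      · obtain ⟨R₀, hR₀⟩ := hex
        refine le_trans (le_of_eq ?_) (Nat.mul_le_mul_right _
          (Nat.choose_le_middle (pl i j g ∩ R₀).card (pl i j g).card))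
        rw [← card_inter]
        congr 1
        refine filter_congr fun R _ => ?_
        rw [sum_reset] at hR₀ ⊢
        constructor
        · intro h
          have h7 : (((pl i j g ∩ R).card : ℤ) - (pl i j g ∩ R₀).card) * (δ i - δ j) = 0 := by
            linarith
          rcases mul_eq_zero.1 h7 with h8 | h8
          · omega
          · exact absurd (by linarith) hij
        · intro h
          rw [h]
          exact hR₀
      · push Not at hex
        have h9 : (univ.filter fun R : Finset (Fin n) => ∑ k, δ (reset i j R g k) = 0) = ∅ := by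
          rw [filter_eq_empty_iff]
          intro R _
          exact hex R
        rw [h9, card_empty]
        exact Nat.zero_le _
    exact le_of_mul_le_mul_left q2 (by positivity)
  -- the inequality of Cauchy and Schwarz
  have h2 : (∑ g : Fin n → I, ((pl i j g).card.choose ((pl i j g).card / 2) : ℝ) /
        2 ^ (pl i j g).card) ^ 2 ≤ (Fintype.card I : ℝ) ^ n *
        ∑ g : Fin n → I, (1 : ℝ) / ((pl i j g).card + 1) := by
    have h3 := sq_sum_le_card_mul_sum_sq (s := (univ : Finset (Fin n → I)))
      (f := fun g : Fin n → I => ((pl i j g).card.choose ((pl i j g).card / 2) : ℝ) /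
        2 ^ (pl i j g).card)
    refine h3.trans ?_
    rw [card_univ, Fintype.card_fun, Fintype.card_fin]
    push_cast
    refine mul_le_mul_of_nonneg_left (sum_le_sum fun g _ => ?_) (by positivity)
    rw [div_pow, div_le_div_iff₀ (by positivity) (by positivity), one_mul, ← pow_mul,
      mul_comm (pl i j g).card 2, pow_mul]
    have h4 := middle_bound (pl i j g).card
    have h5 : (((pl i j g).card : ℝ) + 1) *
        ((pl i j g).card.choose ((pl i j g).card / 2) : ℝ) ^ 2 ≤ 4 ^ (pl i j g).card := by
      exact_mod_cast h4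
    norm_num
    linarith
  have h6 : ((univ.filter fun g : Fin n → I => ∑ k, δ (g k) = 0).card : ℝ) ^ 2 ≤
      (Fintype.card I : ℝ) ^ n * ((Fintype.card I : ℝ) ^ (n + 1) / (2 * (n + 1))) := by
    refine (pow_le_pow_left₀ (by positivity) key 2).trans (h2.trans ?_)
    exact mul_le_mul_of_nonneg_left (sum_inv hij' n) (by positivity)
  rw [mul_div_assoc', le_div_iff₀ (by positivity)] at h6
  calc 2 * ((n : ℝ) + 1) * ((univ.filter fun g : Fin n → I => ∑ k, δ (g k) = 0).card : ℝ) ^ 2
      = ((univ.filter fun g : Fin n → I => ∑ k, δ (g k) = 0).card : ℝ) ^ 2 * (2 * (n + 1)) := by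
        ring
    _ ≤ _ := h6
    _ = _ := by ring

end Pool.Agent.N536.MW
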