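import Pool.Agent.Y163.MW.Defs

/-!
# Cohomology theories with the known properties on a class of varieties
-/

set_option autoImplicit false

open Module TensorProduct

namespace Pool.Agent.N536.MW

universe u v w

open Pool.Agent.H914 Pool.Agent.Y163.MW

/-- The known properties of the cohomology of the smooth projective varieties over a local field
`K` with residue field with `q` elements: `P` is a class of smooth proper varieties such that
`X × Y` is in the class if and only if `X` and `Y` are (the projective ones); the cohomology of the
varieties in the class has the properties `IsCoh` and satisfies the Künneth formula. -/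
structure IsLocalOn {K : Type u} [Field K] {Ω : Type w} [Field Ω] [CharZero Ω]
    (P : SmVar.{u} K → Prop) (T : Theory.{u, v, w} K Ω) (q : ℕ) : Prop where
  prod_iff : ∀ X Y, P (X.prod Y) ↔ P X ∧ P Y
  coh : ∀ X, P X → (T.H X).IsCoh q
  kunneth : ∀ X Y, P X → P Y → ∃ κ, IsKunneth (T.H X) (T.H Y) (T.H (X.prod Y)) κ

end Pool.Agent.N536.MW
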