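import Pool.Agent.N536.MW.Defs
import Pool.Agent.N536.MW.Law

/-!
# Extension by zero of a cohomology theory
-/

set_option autoImplicit false
set_option linter.unusedSectionVars false

open Module TensorProduct Filter Topology

namespace Pool.Agent.N536.MW

universe u v w

open Pool.Agent.Y143 Pool.Agent.Y136.UB Pool.Agent.H914 Pool.Agent.Y163.MW Pool.Agent.Y163.MW.Coh

variable {K : Type u} [Field K] {Ω : Type w} [Field Ω] [CharZero Ω]

/-- The zero cohomology. -/
def zeroCoh (Ω : Type w) [Field Ω] : Coh.{v, w} Ω where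
  V := PUnit
  gr _ := ⊥
  F := 0
  N := 0

theorem zeroCoh_sub (x y : (zeroCoh.{v, w} Ω).V) : x = y := rfl

instance : Subsingleton (zeroCoh.{v, w} Ω).V := ⟨zeroCoh_sub⟩

theorem zeroCoh_isCoh (q : ℕ) : (zeroCoh.{v, w} Ω).IsCoh q where
  finite := inferInstance
  isInternal := by
    have h : Subsingleton (DirectSum ℕ fun i => (zeroCoh.{v, w} Ω).gr i) := by
      refine ⟨fun a b => ?_⟩
      refine DFinsupp.ext fun i => ?_
      exact Subsingleton.elim _ _
    exact ⟨fun a b _ => Subsingleton.elim _ _, fun b => ⟨0, Subsingleton.elim _ _⟩⟩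
  F_gr m x hx := by
    have h : (zeroCoh.{v, w} Ω).F x = x := Subsingleton.elim _ _
    rw [h]
    exact hx
  N_gr m x hx := by
    have h : (zeroCoh.{v, w} Ω).N x = x := Subsingleton.elim _ _
    rw [h]
    exact hx
  N_F _ := Subsingleton.elim _ _
  weil _ _ x _ h0 _ := absurd (Subsingleton.elim x 0) h0
  dual := ⟨0, ⟨fun x _ => Subsingleton.elim _ _, fun _ _ _ _ _ _ _ => rfl, fun m x y _ _ => by
    simp [val]⟩⟩

open Classical in
/-- The extension by zero. -/
noncomputable def extZero (P : SmVar.{u} K → Prop) (T : Theory.{u, v, w} K Ω) :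
    Theory.{u, v, w} K Ω := ⟨fun X => if P X then T.H X else zeroCoh Ω⟩

theorem extZero_pos {P : SmVar.{u} K → Prop} {T : Theory.{u, v, w} K Ω} {X : SmVar.{u} K}
    (h : P X) : (extZero P T).H X = T.H X := if_pos h

theorem extZero_neg {P : SmVar.{u} K → Prop} {T : Theory.{u, v, w} K Ω} {X : SmVar.{u} K}
    (h : ¬ P X) : (extZero P T).H X = zeroCoh Ω := if_neg h

theorem zero_kunneth (R R' R'' : Coh.{v, w} Ω) (h : Subsingleton R.V ∨ Subsingleton R'.V)
    (h'' : Subsingleton R''.V) : ∃ κ, IsKunneth R R' R'' κ := by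
  have h1 : Subsingleton (R.V ⊗[Ω] R'.V) := by
    rcases h with h | h
    · infer_instance
    · infer_instance
  refine ⟨LinearEquiv.ofBijective 0 ⟨fun a b _ => Subsingleton.elim _ _,
    fun b => ⟨0, Subsingleton.elim _ _⟩⟩, ⟨?_, ?_, ?_⟩⟩
  · intro m n x y _ _
    rw [Subsingleton.elim (tm _ x y) 0]
    exact Submodule.zero_mem _
  · intro x y
    exact Subsingleton.elim _ _
  · intro x y
    exact Subsingleton.elim _ _

theorem extZero_isLocal {P : SmVar.{u} K → Prop} {T : Theory.{u, v, w} K Ω} {q : ℕ}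
    (hT : IsLocalOn P T q) : (extZero P T).IsLocal q where
  coh X := by
    by_cases h : P X
    · rw [extZero_pos h]
      exact hT.coh X h
    · rw [extZero_neg h]
      exact zeroCoh_isCoh q
  kunneth X Y := by
    by_cases hX : P X
    · by_cases hY : P Y
      · rw [extZero_pos hX, extZero_pos hY, extZero_pos ((hT.prod_iff X Y).2 ⟨hX, hY⟩)]
        exact hT.kunneth X Y hX hY
      · have h3 : ¬ P (X.prod Y) := fun h => hY ((hT.prod_iff X Y).1 h).2
        rw [extZero_neg hY, extZero_neg h3]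
        exact zero_kunneth _ _ _ (Or.inr inferInstance) inferInstance
    · have h3 : ¬ P (X.prod Y) := fun h => hX ((hT.prod_iff X Y).1 h).1
      rw [extZero_neg hX, extZero_neg h3]
      exact zero_kunneth _ _ _ (Or.inl inferInstance) inferInstance

theorem pow_mem {P : SmVar.{u} K → Prop} {T : Theory.{u, v, w} K Ω} {q : ℕ}
    (hT : IsLocalOn P T q) {X : SmVar.{u} K} (hX : P X) : ∀ n, P (pow X n)
  | 0 => hX
  | n + 1 => (hT.prod_iff X (pow X n)).2 ⟨hX, pow_mem hT hX n⟩

variable [IsAlgClosed Ω]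

/-- The index law on a class of varieties. -/
theorem lawOn {P : SmVar.{u} K → Prop} {T : Theory.{u, v, w} K Ω} {q : ℕ}
    (hT : IsLocalOn P T q) (hq : 1 < q) (X : SmVar.{u} K) (hX : P X) :
    ((T.H (X.prod X)).inv = (T.H (X.prod X)).pred q ↔ ∀ m, (T.H X).MWPure q m) ∧
    ((T.H X).N ≠ 0 → ∃ κ : ℝ, κ ^ 2 * (T.H X).totRankMoment = (T.H X).totWeightMoment q ∧
      1 ≤ κ ∧ (κ = 1 ↔ ∀ m, (T.H X).MWPure q m) ∧
      Tendsto (fun n : ℕ => ((T.H (pow X n)).inv : ℝ) / ((T.H (pow X n)).pred q : ℝ)) atTop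
        (𝓝 κ)) := by
  have h := law (extZero_isLocal hT) hq X
  rw [extZero_pos hX, extZero_pos ((hT.prod_iff X X).2 ⟨hX, hX⟩)] at h
  have h1 : (fun n : ℕ => (((extZero P T).H (pow X n)).inv : ℝ) /
      (((extZero P T).H (pow X n)).pred q : ℝ)) =
      fun n : ℕ => ((T.H (pow X n)).inv : ℝ) / ((T.H (pow X n)).pred q : ℝ) := by
    funext n
    rw [extZero_pos (pow_mem hT hX n)]
  rw [h1] at h
  exact h

end Pool.Agent.N536.MW
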