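import Pool.Agent.N536.MW.Ext
import Pool.Agent.N536.MW.Conc

/-!
# The zero–one law for the weight-monodromy conjecture, with a rate
-/

set_option autoImplicit false

open Module TensorProduct

namespace Pool.Agent.N536.MW

universe u v w

open Pool.Agent.Y143 Pool.Agent.Y136.UB Pool.Agent.H914 Pool.Agent.Y163.MW Pool.Agent.Y163.MW.Coh

variable {K : Type u} [Field K] {Ω : Type w} [Field Ω] [CharZero Ω] [IsAlgClosed Ω]

/-- The cohomology of a variety for which the conjecture fails has dimension at least `2`. -/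
theorem exists_ne {R : Coh.{v, w} Ω} {q : ℕ} (hq : 1 < q) (hR : R.IsCoh q)
    (S : Strings (R.tot q) R.N) (hS : ¬ ∀ m, R.MWPure q m) :
    ∃ p p' : S.P, S.wt p - S.ct p ≠ S.wt p' - S.ct p' := by
  classical
  rw [mw_iff hq hR S] at hS
  push Not at hS
  obtain ⟨s, hs⟩ := hS
  have H := adp_strings S
  have h0 : ∃ p : S.P, S.wt p - S.ct p ≠ 0 := by
    refine ⟨⟨s, ⟨0, by omega⟩⟩, ?_⟩
    unfold Strings.wt Strings.ct
    simp only
    omega
  obtain ⟨p, hp⟩ := h0
  have ha : ∑ p, S.ct p = 0 := by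
    let E : S.P ≃ S.P := Equiv.sigmaCongrRight fun s => Fin.revPerm
    have hE : ∀ p, S.ct (E p) = -S.ct p := by
      rintro ⟨s, i⟩
      show (S.len s : ℤ) - 2 * ((Fin.rev i : Fin (S.len s + 1)) : ℕ) =
        -((S.len s : ℤ) - 2 * (i : ℕ))
      rw [Fin.val_rev]
      have := i.2
      omega
    have h1 : ∑ p, S.ct p = - ∑ p, S.ct p := by
      rw [← Finset.sum_neg_distrib, ← E.sum_comp]
      exact Finset.sum_congr rfl fun p _ => hE p
    omega
  have hc : ∑ p, S.wt p = 0 := by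
    have h1 : ∀ r : ℤ, (Finset.univ.filter fun p => S.wt p = r).card =
        (Finset.univ.filter fun p => S.wt p = -r).card := by
      intro r
      have h2 := finrank_tot_neg hq hR r
      rw [H.finrank_tot hq hR, H.finrank_tot hq hR, Nat.card_eq_fintype_card,
        Nat.card_eq_fintype_card, Fintype.card_subtype, Fintype.card_subtype] at h2
      exact h2
    have h3 : ∑ p, S.wt p = ∑ r ∈ Finset.univ.image S.wt ∪ Finset.univ.image (fun p => - S.wt p),
        r * (Finset.univ.filter fun p => S.wt p = r).card := by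
      rw [← Finset.sum_fiberwise_of_maps_to (s := Finset.univ)
        (t := Finset.univ.image S.wt ∪ Finset.univ.image (fun p => - S.wt p)) (g := S.wt)
        (fun p _ => Finset.mem_union_left _ (Finset.mem_image_of_mem _ (Finset.mem_univ p)))]
      refine Finset.sum_congr rfl fun r _ => ?_
      rw [Finset.sum_congr rfl fun p hp => (Finset.mem_filter.1 hp).2, Finset.sum_const,
        nsmul_eq_mul, mul_comm]
    have h4 : ∑ r ∈ Finset.univ.image S.wt ∪ Finset.univ.image (fun p => - S.wt p),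
        r * ((Finset.univ.filter fun p => S.wt p = r).card : ℤ) =
        ∑ r ∈ Finset.univ.image S.wt ∪ Finset.univ.image (fun p => - S.wt p),
        (-r) * ((Finset.univ.filter fun p => S.wt p = -r).card : ℤ) := by
      refine Finset.sum_nbij' (fun r => -r) (fun r => -r) ?_ ?_ ?_ ?_ ?_
      · intro r hr
        rw [Finset.mem_union, Finset.mem_image, Finset.mem_image] at hr ⊢
        rcases hr with ⟨p, h5, h6⟩ | ⟨p, h5, h6⟩
        · exact Or.inr ⟨p, h5, by rw [h6]⟩
        · exact Or.inl ⟨p, h5, by rw [← h6, neg_neg]⟩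
      · intro r hr
        rw [Finset.mem_union, Finset.mem_image, Finset.mem_image] at hr ⊢
        rcases hr with ⟨p, h5, h6⟩ | ⟨p, h5, h6⟩
        · exact Or.inr ⟨p, h5, by rw [h6]⟩
        · exact Or.inl ⟨p, h5, by rw [← h6, neg_neg]⟩
      · intro r _
        exact neg_neg r
      · intro r _
        exact neg_neg r
      · intro r _
        rw [neg_neg]
    have h5 : ∑ r ∈ Finset.univ.image S.wt ∪ Finset.univ.image (fun p => - S.wt p),
        (-r) * ((Finset.univ.filter fun p => S.wt p = -r).card : ℤ) =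
        - ∑ r ∈ Finset.univ.image S.wt ∪ Finset.univ.image (fun p => - S.wt p),
        r * ((Finset.univ.filter fun p => S.wt p = r).card : ℤ) := by
      rw [← Finset.sum_neg_distrib]
      refine Finset.sum_congr rfl fun r _ => ?_
      rw [h1 r]
      ring
    rw [h5, ← h3] at h4
    omega
  by_contra hcon
  push Not at hcon
  have h6 : ∑ p', (S.wt p' - S.ct p') = 0 := by
    rw [Finset.sum_sub_distrib, ha, hc, sub_zero]
  rw [Finset.sum_congr rfl fun p' _ => hcon p' p, Finset.sum_const, Finset.card_univ,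
    smul_eq_zero] at h6
  rcases h6 with h6 | h6
  · exact (Fintype.card_pos_iff.2 ⟨p⟩).ne' h6
  · exact hp h6

/-- The monodromy filtration exists. -/
theorem exists_mon {R : Coh.{v, w} Ω} {q : ℕ} (hq : 1 < q) (hR : R.IsCoh q) :
    ∃ M, IsMonodromyFiltrationOn ⊤ R.N M := by
  obtain ⟨S⟩ := exists_strings hq hR
  obtain ⟨b, e, h, hs, -⟩ := adp_strings S
  exact ⟨_, Pool.Agent.Y68.MW.fil_monodromy Pool.Agent.Y141.MW.stL hs⟩

theorem dim_pow {T : Theory.{u, v, w} K Ω} {q : ℕ} (hT : T.IsLocal q) (hq : 1 < q)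
    (X : SmVar.{u} K) (n : ℕ) :
    finrank Ω (T.H (pow X n)).V = (finrank Ω (T.H X).V) ^ (n + 1) := by
  obtain ⟨S⟩ := exists_strings hq (hT.coh X)
  have H := adp_strings S
  rw [(adp_pow hT hq X H n).finrank_eq, Fintype.card_fun, Fintype.card_fin, H.finrank_eq]

theorem rate {T : Theory.{u, v, w} K Ω} {q : ℕ} (hT : T.IsLocal q) (hq : 1 < q)
    (X : SmVar.{u} K) (n : ℕ) (M : ℤ → Submodule Ω (T.H (pow X n)).V)
    (hM : IsMonodromyFiltrationOn ⊤ (T.H (pow X n)).N M) :
    ((∀ m, (T.H X).MWPure q m) → (T.H (pow X n)).right q M = finrank Ω (T.H (pow X n)).V) ∧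
    (¬ (∀ m, (T.H X).MWPure q m) → 2 ≤ finrank Ω (T.H X).V ∧
      2 * ((n : ℝ) + 2) * ((T.H (pow X n)).right q M : ℝ) ^ 2 ≤
      finrank Ω (T.H X).V * (finrank Ω (T.H (pow X n)).V : ℝ) ^ 2) := by
  classical
  obtain ⟨S⟩ := exists_strings hq (hT.coh X)
  have H := adp_strings S
  have hd : ∀ (g : Fin (n + 1) → S.P), ∑ k, S.wt (g k) - ∑ k, S.ct (g k) =
      ∑ k, (S.wt (g k) - S.ct (g k)) := fun g => (Finset.sum_sub_distrib _ _).symm
  have hcard : (T.H (pow X n)).right q M =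
      Nat.card {g : Fin (n + 1) → S.P // ∑ k, (S.wt (g k) - S.ct (g k)) = 0} := by
    rw [(adp_pow hT hq X H n).right_eq hq (hT.coh _) hM]
    simp only [hd]
  have hdim : finrank Ω (T.H (pow X n)).V = Fintype.card S.P ^ (n + 1) := by
    rw [(adp_pow hT hq X H n).finrank_eq, Fintype.card_fun, Fintype.card_fin]
  have hdim0 : finrank Ω (T.H X).V = Fintype.card S.P := H.finrank_eq
  constructor
  · intro h
    rw [mw_iff hq (hT.coh X) S] at h
    have h1 : ∀ p, S.wt p - S.ct p = 0 := by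
      intro p
      unfold Strings.wt Strings.ct
      rw [h p.1]
      ring
    rw [hcard, hdim]
    have h2 : Nat.card {g : Fin (n + 1) → S.P // ∑ k, (S.wt (g k) - S.ct (g k)) = 0} =
        Nat.card (Fin (n + 1) → S.P) :=
      Nat.card_congr (Equiv.subtypeUnivEquiv (fun g => Finset.sum_eq_zero fun k _ => h1 (g k)))
    rw [h2, Nat.card_eq_fintype_card, Fintype.card_fun, Fintype.card_fin]
  · intro h
    obtain ⟨p, p', hpp⟩ := exists_ne hq (hT.coh X) S h
    have hc : Nat.card {g : Fin (n + 1) → S.P // ∑ k, (S.wt (g k) - S.ct (g k)) = 0} =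
        (Finset.univ.filter fun g : Fin (n + 1) → S.P =>
          ∑ k, (S.wt (g k) - S.ct (g k)) = 0).card := by
      rw [Nat.card_eq_fintype_card, Fintype.card_subtype]
    rw [hcard, hdim, hdim0, hc]
    refine ⟨?_, ?_⟩
    · have h3 : 1 < Fintype.card S.P :=
        Fintype.one_lt_card_iff.2 ⟨p, p', fun h3 => hpp (by rw [h3])⟩
      exact h3
    · have h2 := count_le (fun p => S.wt p - S.ct p) hpp (n + 1)
      push_cast at h2 ⊢
      have h3 : (n : ℝ) + 1 + 1 = n + 2 := by ring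
      rw [h3] at h2
      exact h2

section

variable {P : SmVar.{u} K → Prop} {T : Theory.{u, v, w} K Ω} {q : ℕ}

/-- The zero–one law with a rate, on a class of varieties. -/
theorem rateOn (hT : IsLocalOn P T q) (hq : 1 < q) (X : SmVar.{u} K) (hX : P X) (n : ℕ)
    (M : ℤ → Submodule Ω (T.H (pow X n)).V)
    (hM : IsMonodromyFiltrationOn ⊤ (T.H (pow X n)).N M) :
    ((∀ m, (T.H X).MWPure q m) → (T.H (pow X n)).right q M = finrank Ω (T.H (pow X n)).V) ∧
    (¬ (∀ m, (T.H X).MWPure q m) → 2 ≤ finrank Ω (T.H X).V ∧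
      2 * ((n : ℝ) + 2) * ((T.H (pow X n)).right q M : ℝ) ^ 2 ≤
      finrank Ω (T.H X).V * (finrank Ω (T.H (pow X n)).V : ℝ) ^ 2) := by
  have h := rate (extZero_isLocal hT) hq X n
  rw [extZero_pos hX, extZero_pos (pow_mem hT hX n)] at h
  exact h M hM

theorem dim_powOn (hT : IsLocalOn P T q) (hq : 1 < q) (X : SmVar.{u} K) (hX : P X) (n : ℕ) :
    finrank Ω (T.H (pow X n)).V = (finrank Ω (T.H X).V) ^ (n + 1) := by
  have h := dim_pow (extZero_isLocal hT) hq X n
  rw [extZero_pos hX, extZero_pos (pow_mem hT hX n)] at h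
  exact h

open Filter

/-- If the share of the eigenvalues of the right weight does not decrease too fast, the conjecture
holds. -/
theorem share (hT : IsLocalOn P T q) (hq : 1 < q) (f : ℕ → ℝ)
    (hf : Tendsto (fun y : ℕ => f y * √(Real.log y)) atTop atTop)
    (h : ∀ X, P X → ∀ M, IsMonodromyFiltrationOn ⊤ (T.H X).N M →
      f (finrank Ω (T.H X).V) * finrank Ω (T.H X).V ≤ (T.H X).right q M)
    (X : SmVar.{u} K) (hX : P X) : ∀ m, (T.H X).MWPure q m := by
  by_contra hcon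
  set b : ℕ := finrank Ω (T.H X).V with hb
  have hb2 : 2 ≤ b := by
    obtain ⟨M, hM⟩ := exists_mon hq (hT.coh (pow X 0) (pow_mem hT hX 0))
    exact ((rateOn hT hq X hX 0 M hM).2 hcon).1
  have h1 : Tendsto (fun n : ℕ => b ^ (n + 1)) atTop atTop :=
    (_root_.tendsto_pow_atTop_atTop_of_one_lt (by omega : 1 < b)).comp (tendsto_add_atTop_nat 1)
  have h2 := (hf.comp h1).eventually_gt_atTop (√((b : ℝ) * Real.log b))
  obtain ⟨n, hn⟩ := h2.exists
  simp only [Function.comp_apply] at hn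
  have hlogb : 0 < Real.log b := Real.log_pos (by exact_mod_cast (by omega : 1 < b))
  have hbR : (0 : ℝ) < b := by exact_mod_cast (by omega : 0 < b)
  obtain ⟨M, hM⟩ := exists_mon hq (hT.coh (pow X n) (pow_mem hT hX n))
  have h3 := ((rateOn hT hq X hX n M hM).2 hcon).2
  have h4 := h (pow X n) (pow_mem hT hX n) M hM
  have h5 : finrank Ω (T.H (pow X n)).V = b ^ (n + 1) := dim_powOn hT hq X hX n
  rw [h5] at h3 h4
  set r : ℝ := ((T.H (pow X n)).right q M : ℝ) with hr
  set B : ℝ := (b : ℝ) ^ (n + 1) with hB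
  have hBpos : 0 < B := by positivity
  have hcast : ((b ^ (n + 1) : ℕ) : ℝ) = B := by push_cast; rfl
  rw [hcast] at h3 h4
  have hlog : Real.log ((b ^ (n + 1) : ℕ) : ℝ) = (n + 1) * Real.log b := by
    push_cast
    rw [Real.log_pow]
    push_cast
    ring
  rw [hlog] at hn
  have hs1 : 0 ≤ √((b : ℝ) * Real.log b) := Real.sqrt_nonneg _
  have hs2 : 0 ≤ √(((n : ℝ) + 1) * Real.log b) := Real.sqrt_nonneg _
  have hfpos : 0 < f (b ^ (n + 1)) := by
    by_contra h6
    push Not at h6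
    have h7 : f (b ^ (n + 1)) * √(((n : ℝ) + 1) * Real.log b) ≤ 0 :=
      mul_nonpos_of_nonpos_of_nonneg h6 hs2
    linarith
  have h8 : (b : ℝ) * Real.log b < f (b ^ (n + 1)) ^ 2 * (((n : ℝ) + 1) * Real.log b) := by
    have h9 := pow_lt_pow_left₀ hn hs1 (n := 2) (by norm_num)
    rw [Real.sq_sqrt (by positivity), mul_pow, Real.sq_sqrt (by positivity)] at h9
    exact h9
  have h10 : (f (b ^ (n + 1)) * B) ^ 2 ≤ r ^ 2 := pow_le_pow_left₀ (by positivity) h4 2
  have h11 : 2 * ((n : ℝ) + 2) * (f (b ^ (n + 1)) * B) ^ 2 ≤ b * B ^ 2 :=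
    (mul_le_mul_of_nonneg_left h10 (by positivity)).trans h3
  have h12 : 2 * ((n : ℝ) + 2) * f (b ^ (n + 1)) ^ 2 ≤ b := by
    have h13 : 2 * ((n : ℝ) + 2) * f (b ^ (n + 1)) ^ 2 * B ^ 2 ≤ b * B ^ 2 := by
      refine le_trans (le_of_eq ?_) h11
      ring
    exact le_of_mul_le_mul_right h13 (by positivity)
  have h14 : (b : ℝ) < f (b ^ (n + 1)) ^ 2 * ((n : ℝ) + 1) := by
    have h15 : (b : ℝ) * Real.log b < f (b ^ (n + 1)) ^ 2 * ((n : ℝ) + 1) * Real.log b := by
      linarith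
    exact lt_of_mul_lt_mul_right h15 hlogb.le
  have h16 : 0 ≤ f (b ^ (n + 1)) ^ 2 := sq_nonneg _
  have h17 : 0 ≤ f (b ^ (n + 1)) ^ 2 * (n : ℝ) := by positivity
  nlinarith

/-- The zero–one law: final form. -/
theorem zeroOne (hT : IsLocalOn P T q) (hq : 1 < q) :
    (∀ X, P X → ∃ M, IsMonodromyFiltrationOn ⊤ (T.H X).N M) ∧
    (∀ X, P X → ∀ (n : ℕ) (M : ℤ → Submodule Ω (T.H (pow X n)).V),
      IsMonodromyFiltrationOn ⊤ (T.H (pow X n)).N M →
      ((∀ m, (T.H X).MWPure q m) → (T.H (pow X n)).right q M = finrank Ω (T.H (pow X n)).V) ∧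
      (¬ (∀ m, (T.H X).MWPure q m) → 2 * ((n : ℝ) + 2) * ((T.H (pow X n)).right q M : ℝ) ^ 2 ≤
        finrank Ω (T.H X).V * (finrank Ω (T.H (pow X n)).V : ℝ) ^ 2)) ∧
    ∀ f : ℕ → ℝ, Tendsto (fun y : ℕ => f y * √(Real.log y)) atTop atTop →
      (∀ X, P X → ∀ M, IsMonodromyFiltrationOn ⊤ (T.H X).N M →
        f (finrank Ω (T.H X).V) * finrank Ω (T.H X).V ≤ (T.H X).right q M) →
      ∀ X, P X → ∀ m, (T.H X).MWPure q m :=
  ⟨fun X hX => exists_mon hq (hT.coh X hX), fun X hX n M hM =>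
    ⟨(rateOn hT hq X hX n M hM).1, fun h => ((rateOn hT hq X hX n M hM).2 h).2⟩,
    fun f hf h X hX => share hT hq f hf h X hX⟩

end

end Pool.Agent.N536.MW
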